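import Pool.Agent.HUK.Stmts

/-!
# HUK, row GKU (helper24): the monodromy groups for the Galois groups of number fields
-/

set_option autoImplicit false

namespace Pool.Agent.HUK.H24

open Polynomial NumberField Matrix Pool.Agent.MTL Pool.Agent.MTL.H34 Pool.Agent.Helper78_MT
  Pool.Agent.HIK Pool.Agent.HIP Pool.Agent.MTPN Pool.Agent.MTN Pool.Agent.HUK

universe u

/-- the Galois group of a number field has finite index in the Galois group of `ℚ` -/
theorem gk_finiteIndex (K : Type) [Field K] [NumberField K] (ψ : K →+* QB) :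
    (MTN.Gk ψ).FiniteIndex := by
  have h0 : Finite (K →ₐ[ℚ] QB) := inferInstance
  have h1 : Finite (K →+* QB) :=
    Finite.of_injective (fun φ : K →+* QB => φ.toRatAlgHom) (fun a b hab => by
      ext x
      exact DFunLike.congr_fun hab x)
  have h2 : ∀ g g' : GQ, (QuotientGroup.mk g : GQ ⧸ MTN.Gk ψ) = QuotientGroup.mk g' ↔
      ∀ y : K, g (ψ y) = g' (ψ y) := by
    intro g g'
    rw [QuotientGroup.eq]
    constructor
    · intro h y
      have h3 : g⁻¹ (g' (ψ y)) = ψ y := h y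
      have h4 : g (g⁻¹ (g' (ψ y))) = g' (ψ y) := AlgEquiv.apply_symm_apply g _
      rw [← h4, h3]
    · intro h y
      change g⁻¹ (g' (ψ y)) = ψ y
      rw [← h y]
      exact AlgEquiv.symm_apply_apply g _
  have h3 : Finite (GQ ⧸ MTN.Gk ψ) := by
    refine Finite.of_injective
      (fun c : GQ ⧸ MTN.Gk ψ => ((c.out : GQ) : QB →+* QB).comp ψ) (fun c c' hcc => ?_)
    have h4 := (h2 c.out c'.out).2 (fun y => DFunLike.congr_fun hcc y)
    rw [QuotientGroup.out_eq', QuotientGroup.out_eq'] at h4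
    exact h4
  exact Subgroup.finiteIndex_of_finite_quotient

/-- row GKU -/
theorem gku (sbv : SbvStmt) : GkuStmt.{u} := by
  classical
  intro d _ _ ℓ _ ρ hρ
  obtain ⟨S, hS, h⟩ := sbv ⊤ isOpen_univ d ℓ (ρ.comp (⊤ : Subgroup GT).subtype)
    (hρ.comp continuous_subtype_val)
  refine ⟨S, hS, fun K _ _ a ψ ha ρa hsp F _ _ => ?_⟩
  obtain ⟨π, hπ, hπ2⟩ := hsp
  obtain ⟨hsu, hdek⟩ := dekA (ψ a) π hπ
  refine monA d ℚ_[ℓ] GT (MTN.Gk ψ) ρ ρa ?_ ?_ F
  · rintro _ ⟨τ, rfl⟩
    obtain ⟨σ, hσ⟩ := hdek τ (τ.2 a)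
    exact ⟨σ, (hπ2 σ τ hσ).symm⟩
  · obtain ⟨Γ, hΓ, h1⟩ := h π (by rw [hπ]; exact ha)
    have huni : ∀ τ τ' : GQ, (∀ b : BB, τ (π b) = τ' (π b)) → τ = τ' := by
      intro τ τ' h2
      refine AlgEquiv.ext fun x => ?_
      obtain ⟨b, rfl⟩ := hsu x
      exact h2 b
    let θ : decG π →* GQ :=
      { toFun := fun σ => Classical.choose σ.2
        map_one' := huni _ _ fun b => by
          rw [← Classical.choose_spec (1 : decG π).2 b]
          simp
        map_mul' := fun x y => huni _ _ fun b => by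
          rw [← Classical.choose_spec (x * y).2 b]
          change π (((x : GT) * (y : GT)) • b) =
            Classical.choose x.2 (Classical.choose y.2 (π b))
          rw [← Classical.choose_spec y.2 b, ← Classical.choose_spec x.2, mul_smul] }
    have hθ : ∀ (σ : decG π) (b : BB), π ((σ : GT) • b) = θ σ (π b) := fun σ b =>
      Classical.choose_spec σ.2 b
    have hfi := gk_finiteIndex K ψ
    have hD : ((MTN.Gk ψ).comap θ).index ≠ 0 := by
      rw [Subgroup.index_comap]
      intro h0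
      apply hfi.index_ne_zero
      have h2 := Subgroup.relIndex_eq_zero_of_le_right (le_top : θ.range ≤ ⊤) h0
      rwa [Subgroup.relIndex_top_right] at h2
    let f : decG π →* GL d ℚ_[ℓ] := ρ.comp (decG π).subtype
    let R1 : Subgroup (GL d ℚ_[ℓ]) := (⊤ : Subgroup (decG π)).map f
    let R2 : Subgroup (GL d ℚ_[ℓ]) := ((MTN.Gk ψ).comap θ).map f
    have h12 : R2.relIndex R1 ≠ 0 := by
      change (((MTN.Gk ψ).comap θ).map f).relIndex ((⊤ : Subgroup (decG π)).map f) ≠ 0
      rw [Subgroup.relIndex_map_map, top_sup_eq, Subgroup.relIndex_top_right]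
      intro h0
      apply hD
      have h2 := Subgroup.index_dvd_of_le
        (le_sup_left : (MTN.Gk ψ).comap θ ≤ (MTN.Gk ψ).comap θ ⊔ f.ker)
      rw [h0] at h2
      exact Nat.eq_zero_of_zero_dvd h2
    have hle : R2 ≤ R1 := Subgroup.map_mono le_top
    refine ⟨R2.comap ρ, ⟨?_⟩, ?_⟩
    · have h3 : (R1.comap ρ).index ≠ 0 := by
        have h4 : (Γ.map (Subgroup.topEquiv : (⊤ : Subgroup GT) ≃* GT).toMonoidHom) ≤
            R1.comap ρ := by
          rintro _ ⟨γ, hγ, rfl⟩
          obtain ⟨σ, hσ, hσ2⟩ := h1 γ hγ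
          exact ⟨⟨σ, hσ⟩, trivial, hσ2⟩
        have h5 := Subgroup.index_map_equiv Γ (Subgroup.topEquiv : (⊤ : Subgroup GT) ≃* GT)
        have h6 := Subgroup.index_dvd_of_le h4
        intro h0
        rw [h0] at h6
        have h7 := Nat.eq_zero_of_zero_dvd h6
        apply hΓ.index_ne_zero
        rw [← h5]
        exact h7
      have h8 : (R2.comap ρ).relIndex (R1.comap ρ) ≠ 0 := by
        rw [Subgroup.relIndex_comap]
        intro h0
        exact h12 (Subgroup.relIndex_eq_zero_of_le_right (Subgroup.map_comap_le _ _) h0)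
      rw [← Subgroup.relIndex_mul_index (Subgroup.comap_mono hle)]
      exact mul_ne_zero h8 h3
    · rintro _ ⟨γ, hγ, rfl⟩
      obtain ⟨σ, hσ, hσ2⟩ := hγ
      refine ⟨⟨θ σ, hσ⟩, ?_⟩
      rw [hπ2 σ ⟨θ σ, hσ⟩ (hθ σ)]
      exact hσ2

end Pool.Agent.HUK.H24
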